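import Mathlib

/-!
# No common return times on translation surfaces whose group of periods is not dense

Let `(X, ω)` be a translation surface whose group of absolute periods is not dense in `ℂ`, and
let `t_i → ∞`.  Then for almost every direction `θ` no orbit of the linear flow `F_θ` converges
along the times `t_i` to a nonsingular point, even if the starting point may vary with `i` in a
sequence which converges to a nonsingular point.
-/

set_option autoImplicit false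

open Filter Topology Set MeasureTheory

namespace Pool.Agent.Results.MP_af7bb4_an.NonDensePeriods

/-! ### The real functional `⟨ξ, z⟩` and subgroups of the plane -/

/-- `Re (conj ξ * z)` -/
noncomputable def pair (ξ z : ℂ) : ℝ := ξ.re * z.re + ξ.im * z.im

theorem pair_add (ξ z w : ℂ) : pair ξ (z + w) = pair ξ z + pair ξ w := by
  unfold pair; rw [Complex.add_re, Complex.add_im]; ring

theorem pair_sub (ξ z w : ℂ) : pair ξ (z - w) = pair ξ z - pair ξ w := by
  unfold pair; rw [Complex.sub_re, Complex.sub_im]; ring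

theorem pair_smul (ξ z : ℂ) (r : ℝ) : pair ξ (r * z) = r * pair ξ z := by
  unfold pair
  rw [Complex.re_ofReal_mul, Complex.im_ofReal_mul]; ring

theorem abs_pair_le (ξ z : ℂ) : |pair ξ z| ≤ ‖ξ‖ * ‖z‖ := by
  refine abs_le_of_sq_le_sq ?_ (by positivity)
  rw [mul_pow, Complex.sq_norm, Complex.sq_norm, Complex.normSq_apply, Complex.normSq_apply]
  unfold pair
  nlinarith [sq_nonneg (ξ.re * z.im - ξ.im * z.re)]

/-- the image of a subgroup under the functional -/
noncomputable def pimg (ξ : ℂ) (G : AddSubgroup ℂ) : AddSubgroup ℝ :=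
  G.map { toFun := pair ξ, map_zero' := by simp [pair], map_add' := pair_add ξ }

theorem mem_pimg {ξ : ℂ} {G : AddSubgroup ℂ} {x : ℝ} : x ∈ pimg ξ G ↔ ∃ z ∈ G, pair ξ z = x := Iff.rfl

/-- a functional with cyclic image gives an integral functional -/
theorem integral_of_cyclic {ξ : ℂ} (hξ : ξ ≠ 0) {G : AddSubgroup ℂ} (h : ¬ Dense (pimg ξ G : Set ℝ)) :
    ∃ η : ℂ, η ≠ 0 ∧ ∀ z ∈ G, ∃ n : ℤ, pair η z = n := by
  obtain ⟨a, ha⟩ := (AddSubgroup.dense_or_cyclic (pimg ξ G)).resolve_left h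
  by_cases ha0 : a = 0
  · refine ⟨ξ, hξ, fun z hz => ⟨0, ?_⟩⟩
    have h1 : pair ξ z ∈ pimg ξ G := mem_pimg.2 ⟨z, hz, rfl⟩
    rw [ha, ha0, AddSubgroup.mem_closure_singleton] at h1
    obtain ⟨n, hn⟩ := h1
    rw [← hn]
    simp
  · refine ⟨((a⁻¹ : ℝ) : ℂ) * ξ, mul_ne_zero (Complex.ofReal_ne_zero.2 (inv_ne_zero ha0)) hξ, fun z hz => ?_⟩
    have h1 : pair ξ z ∈ pimg ξ G := mem_pimg.2 ⟨z, hz, rfl⟩
    rw [ha, AddSubgroup.mem_closure_singleton] at h1
    obtain ⟨n, hn⟩ := h1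
    refine ⟨n, ?_⟩
    have h2 : pair (((a⁻¹ : ℝ) : ℂ) * ξ) z = a⁻¹ * pair ξ z := by
      unfold pair
      rw [Complex.re_ofReal_mul, Complex.im_ofReal_mul]; ring
    rw [h2, ← hn, zsmul_eq_mul]
    field_simp

/-- the functional with kernel `ℝ v`: `Im (conj v * z)` as `pair (I v) z` -/
theorem pair_I (v z : ℂ) : pair (Complex.I * v) z = v.re * z.im - v.im * z.re := by
  unfold pair
  rw [Complex.I_mul_re, Complex.I_mul_im]; ring

theorem norm_sq_decomp (v z : ℂ) : ‖v‖ ^ 2 * ‖z‖ ^ 2 = pair v z ^ 2 + pair (Complex.I * v) z ^ 2 := by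
  rw [pair_I, Complex.sq_norm, Complex.sq_norm, Complex.normSq_apply, Complex.normSq_apply]
  unfold pair
  ring

/-- no small nonzero elements -/
theorem disc_case {G : AddSubgroup ℂ} {ε : ℝ} (hε : 0 < ε) (h : ∀ z ∈ G, ‖z‖ < ε → z = 0) :
    ∃ ξ : ℂ, ξ ≠ 0 ∧ ¬ Dense (pimg ξ G : Set ℝ) := by
  by_cases hG : ∃ z ∈ G, z ≠ 0
  · -- a nearly shortest vector
    set S : Set ℝ := (fun z : ℂ => ‖z‖) '' {z | z ∈ G ∧ z ≠ 0} with hS
    have hSn : S.Nonempty := by
      obtain ⟨z, hz, hz0⟩ := hG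
      exact ⟨‖z‖, z, ⟨hz, hz0⟩, rfl⟩
    have hSb : ∀ x ∈ S, ε ≤ x := by
      rintro x ⟨z, ⟨hz, hz0⟩, rfl⟩
      by_contra hcon
      exact hz0 (h z hz (not_le.1 hcon))
    set m : ℝ := sInf S with hm
    have hm0 : 0 < m := lt_of_lt_of_le hε (le_csInf hSn hSb)
    obtain ⟨_, ⟨v, ⟨hv, hv0⟩, rfl⟩, hvm⟩ := exists_lt_of_csInf_lt hSn (show sInf S < 11 / 10 * m by rw [← hm]; linarith)
    have hmin : ∀ z ∈ G, z ≠ 0 → m ≤ ‖z‖ := fun z hz hz0 => csInf_le ⟨ε, hSb⟩ ⟨z, ⟨hz, hz0⟩, rfl⟩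
    have hvn : 0 < ‖v‖ := norm_pos_iff.2 hv0
    refine ⟨Complex.I * v, mul_ne_zero Complex.I_ne_zero hv0, ?_⟩
    intro hd
    -- an element with small nonzero image
    obtain ⟨x, hx, hx2⟩ := hd.exists_mem_open (isOpen_Ioo (a := (0 : ℝ)) (b := ‖v‖ * m / 2))
      (nonempty_Ioo.2 (by positivity))
    obtain ⟨w, hw, rfl⟩ := mem_pimg.1 hx
    -- reduce modulo `v`
    set k : ℤ := round (pair v w / ‖v‖ ^ 2) with hk
    set w' : ℂ := w - k • v with hw'
    have hw'G : w' ∈ G := G.sub_mem hw (G.zsmul_mem hv k)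
    have hkv : (k • v : ℂ) = ((k : ℝ) : ℂ) * v := by
      rw [zsmul_eq_mul, Complex.ofReal_intCast]
    have e1 : pair (Complex.I * v) w' = pair (Complex.I * v) w := by
      rw [hw', hkv, pair_sub, pair_smul, pair_I v v]
      ring
    have e2 : pair v w' = pair v w - k * ‖v‖ ^ 2 := by
      rw [hw', hkv, pair_sub, pair_smul, Complex.sq_norm, Complex.normSq_apply]
      unfold pair
      ring
    have e3 : |pair v w'| ≤ ‖v‖ ^ 2 / 2 := by
      have h1 := abs_sub_round (pair v w / ‖v‖ ^ 2)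
      rw [← hk] at h1
      have h2 : pair v w' = (pair v w / ‖v‖ ^ 2 - k) * ‖v‖ ^ 2 := by
        rw [e2]
        field_simp
      rw [h2, abs_mul, abs_of_pos (by positivity : 0 < ‖v‖ ^ 2)]
      calc |pair v w / ‖v‖ ^ 2 - k| * ‖v‖ ^ 2 ≤ 1 / 2 * ‖v‖ ^ 2 := by gcongr
        _ = _ := by ring
    have hw'0 : w' ≠ 0 := by
      intro h0
      rw [h0] at e1
      have : pair (Complex.I * v) (0 : ℂ) = 0 := by simp [pair]
      rw [this] at e1
      exact hx2.1.ne e1
    have h3 := hmin w' hw'G hw'0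
    have h4 := norm_sq_decomp v w'
    rw [e1] at h4
    have h5 : pair v w' ^ 2 ≤ (‖v‖ ^ 2 / 2) ^ 2 := sq_le_sq' (abs_le.1 e3).1 (abs_le.1 e3).2
    have h6 : pair (Complex.I * v) w ^ 2 ≤ (‖v‖ * m / 2) ^ 2 := by
      have h7 := hx2.1.le
      have h8 := hx2.2.le
      gcongr
    have h9 : ‖w'‖ ^ 2 ≤ ‖v‖ ^ 2 / 4 + m ^ 2 / 4 := by
      have h10 : ‖v‖ ^ 2 * ‖w'‖ ^ 2 ≤ ‖v‖ ^ 2 * (‖v‖ ^ 2 / 4 + m ^ 2 / 4) := by
        rw [h4]
        nlinarith
      exact le_of_mul_le_mul_left h10 (by positivity)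
    have h11 : m ^ 2 ≤ ‖w'‖ ^ 2 := by gcongr
    have h12 : ‖v‖ ^ 2 ≤ (11 / 10 * m) ^ 2 := by
      have := hvm.le
      gcongr
    nlinarith
  · refine ⟨1, one_ne_zero, fun hd => ?_⟩
    obtain ⟨x, hx, hx2⟩ := hd.exists_mem_open (isOpen_Ioo (a := (0 : ℝ)) (b := 1)) (nonempty_Ioo.2 one_pos)
    obtain ⟨w, hw, rfl⟩ := mem_pimg.1 hx
    have hw0 : w = 0 := by
      by_contra h0
      exact hG ⟨w, hw, h0⟩
    rw [hw0] at hx2
    have : pair 1 (0 : ℂ) = 0 := by simp [pair]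
    rw [this] at hx2
    exact lt_irrefl _ hx2.1

/-- arbitrarily small nonzero elements -/
theorem small_case {G : AddSubgroup ℂ} (h : ∀ ε : ℝ, 0 < ε → ∃ z ∈ G, ‖z‖ < ε ∧ z ≠ 0)
    (hG : ¬ Dense (G : Set ℂ)) : ∃ ξ : ℂ, ξ ≠ 0 ∧ ¬ Dense (pimg ξ G : Set ℝ) := by
  have h1 : ∀ n : ℕ, ∃ z ∈ G, ‖z‖ < 1 / ((n : ℝ) + 1) ∧ z ≠ 0 := fun n => h _ (by positivity)
  choose v hvG hv1 hv0 using h1
  have hvn : ∀ n, 0 < ‖v n‖ := fun n => norm_pos_iff.2 (hv0 n)
  set u : ℕ → ℂ := fun n => ((‖v n‖⁻¹ : ℝ) : ℂ) * v n with hu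
  have hun : ∀ n, u n ∈ Metric.sphere (0 : ℂ) 1 := by
    intro n
    rw [mem_sphere_zero_iff_norm, hu]
    simp only [norm_mul, Complex.norm_real, norm_inv, norm_norm]
    exact inv_mul_cancel₀ (hvn n).ne'
  obtain ⟨u₀, hu₀, φ, hφ, hlim⟩ := (isCompact_sphere (0 : ℂ) 1).tendsto_subseq hun
  have hu₀n : ‖u₀‖ = 1 := mem_sphere_zero_iff_norm.1 hu₀
  have hu₀0 : u₀ ≠ 0 := by
    intro h0
    rw [h0, norm_zero] at hu₀n
    exact zero_ne_one hu₀n
  refine ⟨Complex.I * u₀, mul_ne_zero Complex.I_ne_zero hu₀0, fun hd => hG ?_⟩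
  rw [Metric.dense_iff]
  intro z ε hε
  -- an element with nearly the right image
  obtain ⟨x, hx, hx2⟩ := hd.exists_mem_open (isOpen_Ioo (a := pair (Complex.I * u₀) z - ε / 3)
    (b := pair (Complex.I * u₀) z + ε / 3)) (nonempty_Ioo.2 (by linarith))
  obtain ⟨g, hg, rfl⟩ := mem_pimg.1 hx
  set τ : ℝ := pair u₀ (z - g) with hτ
  set ρ : ℝ := pair (Complex.I * u₀) (z - g) with hρ
  have hρ3 : |ρ| < ε / 3 := by
    rw [hρ, pair_sub, abs_lt]
    constructor <;> linarith [hx2.1, hx2.2]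
  -- `z - g = τ u₀ + ρ i u₀`
  have hsq : u₀.re ^ 2 + u₀.im ^ 2 = 1 := by
    have h2 := Complex.sq_norm u₀
    rw [hu₀n, Complex.normSq_apply] at h2
    linarith
  have hdec : z - g = (τ : ℂ) * u₀ + (ρ : ℂ) * (Complex.I * u₀) := by
    have h3 : ρ = u₀.re * (z - g).im - u₀.im * (z - g).re := by rw [hρ, pair_I]
    have h4 : τ = u₀.re * (z - g).re + u₀.im * (z - g).im := rfl
    apply Complex.ext
    · rw [Complex.add_re, Complex.re_ofReal_mul, Complex.re_ofReal_mul, Complex.I_mul_re, h3, h4]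
      linear_combination (-(z - g).re) * hsq
    · rw [Complex.add_im, Complex.im_ofReal_mul, Complex.im_ofReal_mul, Complex.I_mul_im, h3, h4]
      linear_combination (-(z - g).im) * hsq
  -- a small vector in nearly the right direction
  have hev : ∀ᶠ n in atTop, ‖u (φ n) - u₀‖ * (|τ| + 1) < ε / 3 ∧ ‖v (φ n)‖ < ε / 3 := by
    refine Filter.Eventually.and ?_ ?_
    · have h5 : Tendsto (fun n => ‖u (φ n) - u₀‖ * (|τ| + 1)) atTop (𝓝 (0 * (|τ| + 1))) :=
        ((tendsto_iff_norm_sub_tendsto_zero.1 hlim)).mul_const _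
      rw [zero_mul] at h5
      exact h5.eventually (gt_mem_nhds (by positivity))
    · have h6 : Tendsto (fun n : ℕ => 1 / ((n : ℝ) + 1)) atTop (𝓝 0) := tendsto_one_div_add_atTop_nhds_zero_nat
      have h7 := (h6.comp hφ.tendsto_atTop).eventually (gt_mem_nhds (show (0 : ℝ) < ε / 3 by positivity))
      filter_upwards [h7] with n hn
      exact (hv1 (φ n)).trans hn
  obtain ⟨n, hn1, hn2⟩ := hev.exists
  set w := v (φ n) with hw
  have hwn : 0 < ‖w‖ := hvn _
  set k : ℤ := round (τ / ‖w‖) with hk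
  refine ⟨g + k • w, ?_, G.add_mem hg (G.zsmul_mem (hvG _) k)⟩
  rw [Metric.mem_ball, dist_eq_norm]
  have hkw : (k • w : ℂ) = ((k * ‖w‖ : ℝ) : ℂ) * u (φ n) := by
    rw [hu]
    show (k • w : ℂ) = ((k * ‖w‖ : ℝ) : ℂ) * (((‖w‖⁻¹ : ℝ) : ℂ) * w)
    rw [zsmul_eq_mul, ← mul_assoc, ← Complex.ofReal_mul, mul_assoc, mul_inv_cancel₀ hwn.ne', mul_one, Complex.ofReal_intCast]
  have h8 : |(k : ℝ) * ‖w‖ - τ| ≤ ‖w‖ / 2 := by
    have h9 := abs_sub_round (τ / ‖w‖)
    rw [← hk, abs_sub_comm] at h9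
    have h10 : (k : ℝ) * ‖w‖ - τ = (k - τ / ‖w‖) * ‖w‖ := by
      field_simp
    rw [h10, abs_mul, abs_of_pos hwn]
    calc |(k : ℝ) - τ / ‖w‖| * ‖w‖ ≤ 1 / 2 * ‖w‖ := by gcongr
      _ = _ := by ring
  have h11 : g + k • w - z = ((k * ‖w‖ - τ : ℝ) : ℂ) * u (φ n) + (τ : ℂ) * (u (φ n) - u₀) - (ρ : ℂ) * (Complex.I * u₀) := by
    have h12 : g + k • w - z = k • w - (z - g) := by ring
    rw [h12, hdec, hkw]
    push_cast
    ring
  have hunn : ‖u (φ n)‖ = 1 := mem_sphere_zero_iff_norm.1 (hun _)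
  clear_value u
  rw [h11]
  calc ‖((k * ‖w‖ - τ : ℝ) : ℂ) * u (φ n) + (τ : ℂ) * (u (φ n) - u₀) - (ρ : ℂ) * (Complex.I * u₀)‖
      ≤ ‖((k * ‖w‖ - τ : ℝ) : ℂ) * u (φ n)‖ + ‖(τ : ℂ) * (u (φ n) - u₀)‖ + ‖(ρ : ℂ) * (Complex.I * u₀)‖ :=
        (norm_sub_le _ _).trans (add_le_add (norm_add_le _ _) le_rfl)
    _ = |(k : ℝ) * ‖w‖ - τ| + |τ| * ‖u (φ n) - u₀‖ + |ρ| := by
        rw [norm_mul, norm_mul, norm_mul, norm_mul, hunn, hu₀n, Complex.norm_I, Complex.norm_real, Complex.norm_real,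
          Complex.norm_real, Real.norm_eq_abs, Real.norm_eq_abs, Real.norm_eq_abs]
        ring
    _ < ε := by
        have h13 : |τ| * ‖u (φ n) - u₀‖ ≤ ‖u (φ n) - u₀‖ * (|τ| + 1) := by
          nlinarith [norm_nonneg (u (φ n) - u₀), abs_nonneg τ]
        linarith

/-- a subgroup of the plane which is not dense has a nonzero integral functional -/
theorem exists_integral {G : AddSubgroup ℂ} (hG : ¬ Dense (G : Set ℂ)) :
    ∃ η : ℂ, η ≠ 0 ∧ ∀ z ∈ G, ∃ n : ℤ, pair η z = n := by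
  by_cases h : ∃ ε : ℝ, 0 < ε ∧ ∀ z ∈ G, ‖z‖ < ε → z = 0
  · obtain ⟨ε, hε, h⟩ := h
    obtain ⟨ξ, hξ, h1⟩ := disc_case hε h
    exact integral_of_cyclic hξ h1
  · push Not at h
    obtain ⟨ξ, hξ, h1⟩ := small_case h hG
    exact integral_of_cyclic hξ h1

/-! ### Measure theory -/

/-- the set of `x` where `exp (2 π i t_n x)` converges is null -/
theorem null_conv {t : ℕ → ℝ} (ht : Tendsto t atTop atTop) :
    volume {x : ℝ | ∃ c : ℂ, Tendsto (fun n => (Real.fourierChar (t n * x) : ℂ)) atTop (𝓝 c)} = 0 := by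
  set F : ℕ → ℝ → ℂ := fun n x => (Real.fourierChar (t n * x) : ℂ) with hF
  have hFc : ∀ n, Continuous (F n) := fun n => by
    have : Continuous (fun x : ℝ => Real.fourierChar (t n * x)) :=
      Real.continuous_fourierChar.comp (continuous_const.mul continuous_id)
    exact continuous_subtype_val.comp this
  have hFn : ∀ n x, ‖F n x‖ = 1 := fun n x => Circle.norm_coe _
  have hmeas : MeasurableSet {x : ℝ | ∃ c : ℂ, Tendsto (fun n => F n x) atTop (𝓝 c)} :=
    measurableSet_exists_tendsto (fun n => (hFc n).measurable)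
  -- bounded pieces
  suffices h : ∀ R : ℕ, volume ({x : ℝ | ∃ c : ℂ, Tendsto (fun n => F n x) atTop (𝓝 c)} ∩ Icc (-(R : ℝ)) R) = 0 by
    have h1 : {x : ℝ | ∃ c : ℂ, Tendsto (fun n => F n x) atTop (𝓝 c)} ⊆
        ⋃ R : ℕ, {x : ℝ | ∃ c : ℂ, Tendsto (fun n => F n x) atTop (𝓝 c)} ∩ Icc (-(R : ℝ)) R := by
      intro x hx
      obtain ⟨R, hR⟩ := exists_nat_ge |x|
      exact mem_iUnion.2 ⟨R, hx, abs_le.1 hR⟩
    exact measure_mono_null h1 (measure_iUnion_null h)
  intro R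
  set S : Set ℝ := {x : ℝ | ∃ c : ℂ, Tendsto (fun n => F n x) atTop (𝓝 c)} ∩ Icc (-(R : ℝ)) R with hS
  have hSm : MeasurableSet S := hmeas.inter measurableSet_Icc
  have hSfin : volume S < ⊤ := lt_of_le_of_lt (measure_mono inter_subset_right) (by
    rw [Real.volume_Icc]; exact ENNReal.ofReal_lt_top)
  have : IsFiniteMeasure (volume.restrict S) := ⟨by rwa [Measure.restrict_apply_univ]⟩
  set g : ℝ → ℂ := fun x => limUnder atTop (fun n => F n x) with hg
  have hlim : ∀ x ∈ S, Tendsto (fun n => F n x) atTop (𝓝 (g x)) := fun x hx =>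
    tendsto_nhds_limUnder hx.1
  have hgn : ∀ x ∈ S, ‖g x‖ = 1 := by
    intro x hx
    have h1 := (hlim x hx).norm
    simp only [hFn] at h1
    exact tendsto_nhds_unique h1 tendsto_const_nhds |>.symm ▸ rfl
  -- Riemann-Lebesgue
  have hRL : ∀ i, Tendsto (fun j => ∫ x in S, F j x * (starRingEnd ℂ) (F i x)) atTop (𝓝 0) := by
    intro i
    have h1 := Real.tendsto_integral_exp_smul_cocompact (S.indicator (fun _ => (1 : ℂ)))
    have h2 : Tendsto (fun j => t i - t j) atTop (cocompact ℝ) := by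
      refine Tendsto.mono_right ?_ atBot_le_cocompact
      exact tendsto_atBot_add_const_left _ _ (tendsto_neg_atTop_atBot.comp ht)
    refine (h1.comp h2).congr (fun j => ?_)
    rw [← integral_indicator hSm]
    refine integral_congr_ae (Eventually.of_forall (fun x => ?_))
    by_cases hx : x ∈ S
    · simp only [Set.indicator_of_mem hx]
      have e1 : -(x * (t i - t j)) = t j * x + -(t i * x) := by ring
      show Real.fourierChar (-(x * (t i - t j))) • (1 : ℂ) = F j x * (starRingEnd ℂ) (F i x)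
      rw [e1, AddChar.map_add_eq_mul, AddChar.map_neg_eq_inv, Circle.smul_def, smul_eq_mul, mul_one,
        Circle.coe_mul, Circle.coe_inv_eq_conj]
    · simp only [Set.indicator_of_notMem hx, smul_zero]
  have hDC : ∀ i, Tendsto (fun j => ∫ x in S, F j x * (starRingEnd ℂ) (F i x)) atTop
      (𝓝 (∫ x in S, g x * (starRingEnd ℂ) (F i x))) := by
    intro i
    refine tendsto_integral_of_dominated_convergence (fun _ => (1 : ℝ)) ?_ (integrable_const _) ?_ ?_
    · intro n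
      exact ((hFc n).mul (Complex.continuous_conj.comp (hFc i))).aestronglyMeasurable
    · intro n
      refine Eventually.of_forall (fun x => ?_)
      rw [norm_mul, RCLike.norm_conj, hFn, hFn, one_mul]
    · rw [ae_restrict_iff' hSm]
      exact Eventually.of_forall (fun x hx => (hlim x hx).mul_const _)
  have hzero : ∀ i, ∫ x in S, g x * (starRingEnd ℂ) (F i x) = 0 := fun i =>
    tendsto_nhds_unique (hDC i) (hRL i)
  have hgm : AEStronglyMeasurable g (volume.restrict S) := by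
    refine aestronglyMeasurable_of_tendsto_ae atTop (fun n => (hFc n).aestronglyMeasurable) ?_
    rw [ae_restrict_iff' hSm]
    exact Eventually.of_forall (fun x hx => hlim x hx)
  have hDC2 : Tendsto (fun i => ∫ x in S, g x * (starRingEnd ℂ) (F i x)) atTop
      (𝓝 (∫ x in S, g x * (starRingEnd ℂ) (g x))) := by
    refine tendsto_integral_of_dominated_convergence (fun _ => (1 : ℝ)) ?_ (integrable_const _) ?_ ?_
    · intro n
      exact hgm.mul (Complex.continuous_conj.comp (hFc n)).aestronglyMeasurable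
    · intro n
      rw [ae_restrict_iff' hSm]
      refine Eventually.of_forall (fun x hx => ?_)
      rw [norm_mul, RCLike.norm_conj, hFn, hgn x hx, one_mul]
    · rw [ae_restrict_iff' hSm]
      refine Eventually.of_forall (fun x hx => ?_)
      exact ((Complex.continuous_conj.tendsto _).comp (hlim x hx)).const_mul _
  simp only [hzero] at hDC2
  have h5 : ∫ x in S, g x * (starRingEnd ℂ) (g x) = ((volume.real S : ℝ) : ℂ) := by
    have h6 : ∫ x in S, g x * (starRingEnd ℂ) (g x) = ∫ x in S, (1 : ℂ) := by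
      refine setIntegral_congr_fun hSm (fun x hx => ?_)
      rw [Complex.mul_conj, Complex.normSq_eq_norm_sq, hgn x hx]
      norm_num
    rw [h6, setIntegral_const]
    simp
  rw [h5] at hDC2
  have h7 := tendsto_nhds_unique hDC2 tendsto_const_nhds
  have h8 : volume.real S = 0 := by exact_mod_cast h7
  rw [measureReal_def, ENNReal.toReal_eq_zero_iff] at h8
  exact h8.resolve_right hSfin.ne

/-- the image of a null set under a map differentiable outside a finite set is null -/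
theorem null_image {f : ℝ → ℝ} {Z N : Set ℝ} (hZ : Z.Finite) (hf : ∀ x, x ∉ Z → DifferentiableAt ℝ f x)
    (hN : volume N = 0) : volume (f '' N) = 0 := by
  have h1 : f '' N ⊆ f '' (N \ Z) ∪ f '' Z := by
    rintro _ ⟨x, hx, rfl⟩
    by_cases h : x ∈ Z
    · exact Or.inr ⟨x, h, rfl⟩
    · exact Or.inl ⟨x, ⟨hx, h⟩, rfl⟩
  refine measure_mono_null h1 (measure_union_null ?_ ((hZ.image f).measure_zero _))
  refine addHaar_image_eq_zero_of_differentiableOn_of_addHaar_eq_zero volume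
    (fun x hx => (hf x hx.2).differentiableWithinAt) (measure_mono_null sdiff_subset hN)

/-- `⟨η, e^{iθ}⟩ = |η| cos (θ - arg η)` -/
theorem pair_exp (η : ℂ) (θ : ℝ) : pair η (Complex.exp (θ * Complex.I)) = ‖η‖ * Real.cos (θ - η.arg) := by
  unfold pair
  rw [Complex.exp_ofReal_mul_I_re, Complex.exp_ofReal_mul_I_im, Real.cos_sub]
  have h1 := Complex.norm_mul_cos_arg η
  have h2 := Complex.norm_mul_sin_arg η
  linear_combination (-Real.cos θ) * h1 - Real.sin θ * h2

/-- the preimage of a null set under `θ ↦ ⟨η, e^{iθ}⟩` is null -/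
theorem null_preimage {η : ℂ} (hη : η ≠ 0) {N : Set ℝ} (hN : volume N = 0) :
    volume {θ : ℝ | pair η (Complex.exp (θ * Complex.I)) ∈ N} = 0 := by
  have hn : 0 < ‖η‖ := norm_pos_iff.2 hη
  have h1 : {θ : ℝ | pair η (Complex.exp (θ * Complex.I)) ∈ N} ⊆
      ⋃ k : ℤ, ((fun y : ℝ => 2 * k * Real.pi + Real.arccos (y / ‖η‖) + η.arg) '' N ∪
        (fun y : ℝ => 2 * k * Real.pi - Real.arccos (y / ‖η‖) + η.arg) '' N) := by
    intro θ hθ
    rw [mem_ofPred_eq, pair_exp] at hθ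
    have h2 : Real.cos (Real.arccos (Real.cos (θ - η.arg))) = Real.cos (θ - η.arg) :=
      Real.cos_arccos (Real.neg_one_le_cos _) (Real.cos_le_one _)
    obtain ⟨k, hk⟩ := Real.cos_eq_cos_iff.1 h2
    have h3 : ‖η‖ * Real.cos (θ - η.arg) / ‖η‖ = Real.cos (θ - η.arg) := by field_simp
    rw [mem_iUnion]
    refine ⟨k, ?_⟩
    rcases hk with hk | hk
    · left
      refine ⟨_, hθ, ?_⟩
      simp only [h3]
      linarith
    · right
      refine ⟨_, hθ, ?_⟩
      simp only [h3]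
      linarith
  have hZ : ({‖η‖, -‖η‖} : Set ℝ).Finite := by simp
  have hd : ∀ y : ℝ, y ∉ ({‖η‖, -‖η‖} : Set ℝ) → DifferentiableAt ℝ (fun y => Real.arccos (y / ‖η‖)) y := by
    intro y hy
    have h4 : y / ‖η‖ ≠ -1 ∧ y / ‖η‖ ≠ 1 := by
      constructor
      · intro h
        rw [div_eq_iff hn.ne'] at h
        exact hy (by rw [h]; simp)
      · intro h
        rw [div_eq_iff hn.ne'] at h
        exact hy (by rw [h]; simp)
    have h5 : DifferentiableAt ℝ Real.arccos (y / ‖η‖) := Real.differentiableAt_arccos.2 h4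
    have h6 : DifferentiableAt ℝ (fun y : ℝ => y / ‖η‖) y := differentiableAt_id.div_const _
    exact DifferentiableAt.comp (g := Real.arccos) (f := fun y : ℝ => y / ‖η‖) y h5 h6
  refine measure_mono_null h1 (measure_iUnion_null (fun k => measure_union_null ?_ ?_))
  · exact null_image hZ (fun y hy => ((hd y hy).const_add _).add_const _) hN
  · exact null_image hZ (fun y hy => ((hd y hy).const_sub _).add_const _) hN

/-- for almost every `θ` the characters `exp (2 π i t_n ⟨η, e^{iθ}⟩)` do not converge -/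
theorem ae_not_conv {η : ℂ} (hη : η ≠ 0) {t : ℕ → ℝ} (ht : Tendsto t atTop atTop) :
    ∀ᵐ θ : ℝ, ¬ ∃ c : ℂ, Tendsto (fun n => (Real.fourierChar (t n * pair η (Complex.exp (θ * Complex.I))) : ℂ))
      atTop (𝓝 c) := by
  rw [ae_iff]
  simp only [not_not]
  exact null_preimage hη (null_conv ht)

/-! ### Translation atlases, paths and periods -/

/-- A translation atlas on `M`: a set of charts (homeomorphisms from open subsets of `M`, which
need not cover `M`, to open subsets of `ℂ`), such that near every common point of the domains of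
two charts the two charts differ by a translation. -/
structure TransAtlas (M : Type*) [TopologicalSpace M] where
  charts : Set (OpenPartialHomeomorph M ℂ)
  trans : ∀ e ∈ charts, ∀ e' ∈ charts, ∀ x ∈ e.source ∩ e'.source,
    ∀ᶠ y in 𝓝 x, e' y - e' x = e y - e x

variable {M : Type*} [TopologicalSpace M]

namespace TransAtlas

variable (T : TransAtlas M)

/-- the nonsingular points: the domains of the charts -/
def regular : Set M := {x | ∃ e ∈ T.charts, x ∈ e.source}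

/-- `γ`, restricted to `[a, b]`, is a path through nonsingular points, and `D` is a primitive of
the form `ω = dz` along this path (`z` a chart) -/
def Dev (γ : ℝ → M) (D : ℝ → ℂ) (a b : ℝ) : Prop :=
  ContinuousOn γ (Icc a b) ∧ ∀ s ∈ Icc a b, ∃ e ∈ T.charts, γ s ∈ e.source ∧
    ∀ᶠ s' in 𝓝[Icc a b] s, e (γ s') - e (γ s) = D s' - D s

/-- the periods: the integrals of `ω` over closed paths -/
def periods : Set ℂ :=
  {z | ∃ (γ : ℝ → M) (D : ℝ → ℂ) (a b : ℝ), a ≤ b ∧ T.Dev γ D a b ∧ γ a = γ b ∧ z = D b - D a}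

/-- `γ`, restricted to `[0, L]`, is a piece of an orbit of the linear flow in direction `θ` -/
def Straight (θ : ℝ) (γ : ℝ → M) (L : ℝ) : Prop :=
  T.Dev γ (fun s => s * Complex.exp (θ * Complex.I)) 0 L

variable {T}

theorem Dev.congr {γ γ' : ℝ → M} {D D' : ℝ → ℂ} {a b : ℝ} (h : T.Dev γ D a b)
    (h1 : EqOn γ' γ (Icc a b)) {c : ℂ} (h2 : ∀ s ∈ Icc a b, D' s = D s + c) : T.Dev γ' D' a b := by
  refine ⟨h.1.congr h1, fun s hs => ?_⟩
  obtain ⟨e, he, hse, hev⟩ := h.2 s hs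
  refine ⟨e, he, by rwa [h1 hs], ?_⟩
  filter_upwards [hev, self_mem_nhdsWithin] with s' hs' hs'm
  rw [h1 hs'm, h1 hs, h2 _ hs'm, h2 _ hs, hs']
  ring

/-- reparametrisation by `s ↦ σ s` -/
theorem Dev.comp {γ : ℝ → M} {D : ℝ → ℂ} {a b a' b' : ℝ} (h : T.Dev γ D a b) {σ : ℝ → ℝ}
    (hσ : ContinuousOn σ (Icc a' b')) (hm : MapsTo σ (Icc a' b') (Icc a b)) :
    T.Dev (γ ∘ σ) (D ∘ σ) a' b' := by
  refine ⟨h.1.comp hσ hm, fun s hs => ?_⟩
  obtain ⟨e, he, hse, hev⟩ := h.2 (σ s) (hm hs)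
  refine ⟨e, he, hse, ?_⟩
  have h3 : Tendsto σ (𝓝[Icc a' b'] s) (𝓝[Icc a b] (σ s)) := (hσ s hs).tendsto_nhdsWithin hm
  exact h3.eventually hev

/-- concatenation of two paths -/
theorem Dev.append {γ₁ γ₂ : ℝ → M} {D₁ D₂ : ℝ → ℂ} {a b c : ℝ} (hab : a ≤ b) (hbc : b ≤ c)
    (h₁ : T.Dev γ₁ D₁ a b) (h₂ : T.Dev γ₂ D₂ b c) (hg : γ₁ b = γ₂ b) :
    ∃ (γ : ℝ → M) (D : ℝ → ℂ), T.Dev γ D a c ∧ γ a = γ₁ a ∧ γ c = γ₂ c ∧
      D c - D a = (D₁ b - D₁ a) + (D₂ c - D₂ b) := by
  set γ : ℝ → M := fun s => if s ≤ b then γ₁ s else γ₂ s with hγ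
  set D : ℝ → ℂ := fun s => if s ≤ b then D₁ s else D₂ s + (D₁ b - D₂ b) with hD
  have g1 : EqOn γ γ₁ (Icc a b) := fun s hs => if_pos hs.2
  have g2 : EqOn γ γ₂ (Icc b c) := by
    intro s hs
    by_cases h : s ≤ b
    · have : s = b := le_antisymm h hs.1
      subst this
      show (if s ≤ s then γ₁ s else γ₂ s) = _
      rw [if_pos le_rfl, hg]
    · exact if_neg h
  have d1 : ∀ s ∈ Icc a b, D s = D₁ s + 0 := fun s hs => by
    rw [add_zero]; exact if_pos hs.2
  have d2 : ∀ s ∈ Icc b c, D s = D₂ s + (D₁ b - D₂ b) := by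
    intro s hs
    by_cases h : s ≤ b
    · have : s = b := le_antisymm h hs.1
      subst this
      show (if s ≤ s then D₁ s else _) = _
      rw [if_pos le_rfl]
      ring
    · exact if_neg h
  have k1 : T.Dev γ D a b := h₁.congr g1 d1
  have k2 : T.Dev γ D b c := h₂.congr g2 d2
  have hun : Icc a b ∪ Icc b c = Icc a c := Icc_union_Icc_eq_Icc hab hbc
  refine ⟨γ, D, ⟨?_, ?_⟩, ?_, ?_, ?_⟩
  · rw [← hun]
    exact k1.1.union_of_isClosed k2.1 isClosed_Icc isClosed_Icc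
  · intro s hs
    rw [← hun, nhdsWithin_union]
    rcases lt_trichotomy s b with h | h | h
    · obtain ⟨e, he, hse, hev⟩ := k1.2 s ⟨hs.1, h.le⟩
      refine ⟨e, he, hse, Filter.eventually_sup.2 ⟨hev, ?_⟩⟩
      have : 𝓝[Icc b c] s = ⊥ := by
        rw [← notMem_closure_iff_nhdsWithin_eq_bot, isClosed_Icc.closure_eq]
        exact fun h' => absurd h'.1 (not_le.2 h)
      rw [this]
      exact Filter.eventually_bot
    · subst h
      obtain ⟨e, he, hse, hev⟩ := k1.2 s ⟨hs.1, le_rfl⟩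
      obtain ⟨e', he', hse', hev'⟩ := k2.2 s ⟨le_rfl, hs.2⟩
      refine ⟨e, he, hse, Filter.eventually_sup.2 ⟨hev, ?_⟩⟩
      have h3 := T.trans e he e' he' (γ s) ⟨hse, hse'⟩
      have h4 : Tendsto γ (𝓝[Icc s c] s) (𝓝 (γ s)) := k2.1 s ⟨le_rfl, hs.2⟩
      filter_upwards [hev', h4.eventually h3] with s' h5 h6
      rw [← h6, h5]
    · obtain ⟨e, he, hse, hev⟩ := k2.2 s ⟨h.le, hs.2⟩
      refine ⟨e, he, hse, Filter.eventually_sup.2 ⟨?_, hev⟩⟩
      have : 𝓝[Icc a b] s = ⊥ := by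
        rw [← notMem_closure_iff_nhdsWithin_eq_bot, isClosed_Icc.closure_eq]
        exact fun h' => absurd h'.2 (not_le.2 h)
      rw [this]
      exact Filter.eventually_bot
  · exact g1 ⟨le_rfl, hab⟩
  · exact g2 ⟨hbc, le_rfl⟩
  · rw [d1 a ⟨le_rfl, hab⟩, d2 c ⟨hbc, le_rfl⟩]
    ring

/-- a path joining two points along which `ω` has integral `z` -/
def Joins (T : TransAtlas M) (x y : M) (z : ℂ) : Prop :=
  ∃ (γ : ℝ → M) (D : ℝ → ℂ), T.Dev γ D 0 1 ∧ γ 0 = x ∧ γ 1 = y ∧ D 1 - D 0 = z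

theorem Dev.joins {γ : ℝ → M} {D : ℝ → ℂ} {a b : ℝ} (hab : a ≤ b) (h : T.Dev γ D a b) :
    T.Joins (γ a) (γ b) (D b - D a) := by
  refine ⟨γ ∘ (fun s => a + s * (b - a)), D ∘ (fun s => a + s * (b - a)), h.comp ?_ ?_, ?_, ?_, ?_⟩
  · fun_prop
  · intro s hs
    have h1 := hs.1
    have h2 := hs.2
    constructor
    · have : 0 ≤ s * (b - a) := mul_nonneg h1 (by linarith)
      linarith
    · nlinarith
  · simp
  · simp
  · simp

theorem Joins.symm {x y : M} {z : ℂ} (h : T.Joins x y z) : T.Joins y x (-z) := by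
  obtain ⟨γ, D, h1, h2, h3, h4⟩ := h
  refine ⟨γ ∘ (fun s => 1 - s), D ∘ (fun s => 1 - s), h1.comp ?_ ?_, ?_, ?_, ?_⟩
  · fun_prop
  · intro s hs
    exact ⟨by linarith [hs.2], by linarith [hs.1]⟩
  · simp [h3]
  · simp [h2]
  · simp [← h4]

theorem Joins.append {x y w : M} {z z' : ℂ} (h : T.Joins x y z) (h' : T.Joins y w z') :
    T.Joins x w (z + z') := by
  obtain ⟨γ, D, h1, h2, h3, h4⟩ := h
  obtain ⟨γ', D', h1', h2', h3', h4'⟩ := h'
  have k := h1'.comp (σ := fun s => s - 1) (a' := 1) (b' := 2) (by fun_prop)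
    (fun s hs => ⟨by linarith [hs.1], by linarith [hs.2]⟩)
  obtain ⟨γ'', D'', j1, j2, j3, j4⟩ := h1.append zero_le_one (by norm_num) k (by simp [h3, h2'])
  have j5 := j1.joins (by norm_num)
  rw [j2, j3, j4, h2, h4] at j5
  norm_num [h3', h4'] at j5
  exact j5

/-- chart segments -/
theorem joins_chart {e : OpenPartialHomeomorph M ℂ} (he : e ∈ T.charts) {c : ℂ} {r : ℝ}
    (hr : Metric.ball c r ⊆ e.target) {x y : M} (hx : x ∈ e.source) (hy : y ∈ e.source)
    (hxr : e x ∈ Metric.ball c r) (hyr : e y ∈ Metric.ball c r) : T.Joins x y (e y - e x) := by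
  set D : ℝ → ℂ := fun s => e x + s * (e y - e x) with hD
  have hDb : ∀ s ∈ Icc (0 : ℝ) 1, D s ∈ Metric.ball c r := by
    intro s hs
    have h1 := (convex_ball c r).add_smul_sub_mem hxr hyr hs
    rwa [Complex.real_smul] at h1
  have hDc : ContinuousOn D (Icc 0 1) := by fun_prop
  refine ⟨fun s => e.symm (D s), D, ⟨?_, ?_⟩, ?_, ?_, ?_⟩
  · exact e.continuousOn_symm.comp hDc (fun s hs => hr (hDb s hs))
  · intro s hs
    refine ⟨e, he, e.map_target (hr (hDb s hs)), ?_⟩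
    filter_upwards [self_mem_nhdsWithin] with s' hs'
    rw [e.right_inv (hr (hDb s hs)), e.right_inv (hr (hDb s' hs'))]
  · simp [hD, e.left_inv hx]
  · simp [hD, e.left_inv hy]
  · simp [hD]

theorem Joins.period {x : M} {z : ℂ} (h : T.Joins x x z) : z ∈ T.periods := by
  obtain ⟨γ, D, h1, h2, h3, h4⟩ := h
  exact ⟨γ, D, 0, 1, zero_le_one, h1, by rw [h2, h3], h4.symm⟩

end TransAtlas

/-! ### The theorem -/

theorem fourierChar_int (n : ℤ) : Real.fourierChar (n : ℝ) = 1 := by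
  apply Subtype.ext
  rw [Real.fourierChar_apply]
  have h : ((2 * Real.pi * (n : ℝ) : ℝ) : ℂ) * Complex.I = n * (2 * Real.pi * Complex.I) := by
    push_cast; ring
  rw [h, Complex.exp_int_mul_two_pi_mul_I]
  rfl

theorem continuous_pair (η : ℂ) : Continuous (pair η) :=
  (continuous_const.mul Complex.continuous_re).add (continuous_const.mul Complex.continuous_im)

/-- near a nonsingular point any two points are joined by a chart segment -/
theorem exists_chart {T : TransAtlas M} {x : M} (hx : x ∈ T.regular) :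
    ∃ e ∈ T.charts, x ∈ e.source ∧ ∃ U ∈ 𝓝 x, ∀ y ∈ U, ∀ w ∈ U, T.Joins y w (e w - e y) := by
  obtain ⟨e, he, hxe⟩ := hx
  obtain ⟨r, hr, hb⟩ := Metric.isOpen_iff.1 e.open_target (e x) (e.map_source hxe)
  have h1 : ∀ᶠ y in 𝓝 x, y ∈ e.source := e.open_source.mem_nhds hxe
  have h2 : ∀ᶠ y in 𝓝 x, e y ∈ Metric.ball (e x) r :=
    (e.continuousAt hxe).eventually (Metric.ball_mem_nhds _ hr)
  exact ⟨e, he, hxe, _, h1.and h2, fun y hy w hw =>
    TransAtlas.joins_chart he hb hy.1 hw.1 hy.2 hw.2⟩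

/-- **Theorem.**  Let `T` be a translation atlas on `M` whose periods generate a group which is
not dense in `ℂ`, and let `t_i → ∞`.  For almost every direction `θ` the following holds.  If
`γ_i` is a straight orbit piece of direction `θ` and length `t_i` for every `i`, and `γ_i 0`
converges to a nonsingular point, then `γ_i (t_i)` does not converge to a nonsingular point.

In particular (`γ_i = γ` the orbit of `p`): on such a surface there is no nonsingular `p` with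
`F_θ^{t_i} (p) → p` for almost every `θ`; this holds for almost no `θ`. -/
theorem result {M : Type*} [TopologicalSpace M] (T : TransAtlas M)
    (hT : ¬ Dense (AddSubgroup.closure T.periods : Set ℂ))
    (t : ℕ → ℝ) (ht : Tendsto t atTop atTop) :
    ∀ᵐ θ : ℝ, ∀ (γ : ℕ → ℝ → M) (p x : M), p ∈ T.regular → x ∈ T.regular →
      (∀ i, T.Straight θ (γ i) (t i)) → Tendsto (fun i => γ i 0) atTop (𝓝 p) →
      ¬ Tendsto (fun i => γ i (t i)) atTop (𝓝 x) := by
  obtain ⟨η, hη, hint⟩ := exists_integral hT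
  filter_upwards [ae_not_conv hη ht] with θ hθ γ p x hp hx hγ hγp hγx
  apply hθ
  obtain ⟨e', -, hpe, U', hU', hp2⟩ := exists_chart hp
  obtain ⟨e, -, hxe, U, hU, hx2⟩ := exists_chart hx
  have hep : Tendsto (fun i => e' (γ i 0)) atTop (𝓝 (e' p)) := (e'.continuousAt hpe).tendsto.comp hγp
  have hex : Tendsto (fun i => e (γ i (t i))) atTop (𝓝 (e x)) := (e.continuousAt hxe).tendsto.comp hγx
  have hev : ∀ᶠ i in atTop, γ i 0 ∈ U' ∧ γ i (t i) ∈ U ∧ 0 ≤ t i :=
    (hγp.eventually hU').and ((hγx.eventually hU).and (ht.eventually_ge_atTop 0))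
  obtain ⟨N, hN⟩ := eventually_atTop.1 hev
  -- the holonomy of the `i`-th piece, closed up in the two charts
  set E : ℂ := Complex.exp (θ * Complex.I) with hE
  set w : ℕ → ℂ := fun i => t i * E - e (γ i (t i)) + e' (γ i 0) with hw
  have key : ∀ i, N ≤ i → ∃ n : ℤ, pair η (w i) = pair η (w N) + n := by
    intro i hi
    obtain ⟨a1, a2, a3⟩ := hN i hi
    obtain ⟨b1, b2, b3⟩ := hN N le_rfl
    have j1 := hp2 _ b1 _ a1
    have j2 := TransAtlas.Dev.joins a3 (hγ i)
    have j3 := hx2 _ a2 _ b2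
    have j4 := (TransAtlas.Dev.joins b3 (hγ N)).symm
    have j5 := (((j1.append j2).append j3).append j4).period
    obtain ⟨n, hn⟩ := hint _ (AddSubgroup.subset_closure j5)
    refine ⟨n, ?_⟩
    rw [← hn, ← pair_add]
    congr 1
    simp only [hw]
    push_cast
    ring
  refine ⟨(Real.fourierChar (pair η (w N)) : ℂ) * (Real.fourierChar (pair η (e x - e' p)) : ℂ), ?_⟩
  have hc : Tendsto (fun i => (Real.fourierChar (pair η (w N)) : ℂ) *
      (Real.fourierChar (pair η (e (γ i (t i)) - e' (γ i 0))) : ℂ)) atTop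
      (𝓝 ((Real.fourierChar (pair η (w N)) : ℂ) * (Real.fourierChar (pair η (e x - e' p)) : ℂ))) := by
    refine Tendsto.const_mul _ ?_
    have hcc : Continuous (fun z : ℂ => (Real.fourierChar (pair η z) : ℂ)) :=
      continuous_subtype_val.comp (Real.continuous_fourierChar.comp (continuous_pair η))
    exact (hcc.tendsto _).comp (hex.sub hep)
  refine hc.congr' ?_
  filter_upwards [eventually_ge_atTop N] with i hi
  obtain ⟨n, hn⟩ := key i hi
  have e1 : t i * pair η E = pair η (w N) + n + pair η (e (γ i (t i)) - e' (γ i 0)) := by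
    rw [← hn, ← pair_smul, ← pair_add]
    congr 1
    simp only [hw]
    ring
  rw [e1, AddChar.map_add_eq_mul, AddChar.map_add_eq_mul, fourierChar_int, mul_one, Circle.coe_mul]

end Pool.Agent.Results.MP_af7bb4_an.NonDensePeriods
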